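import Pool.Agent.H.MP_37447d_al.A

namespace Pool.Agent.Results.MP_37447d_al.Growth
open Finset Pool.Agent.H.MP_37447d_al
open scoped Pointwise

variable {G : Type} [Group G]

/-- Length function. -/
def IsLength (L : G → ℝ) : Prop :=
  L 1 = 0 ∧ (∀ g, 0 ≤ L g) ∧ (∀ g, L g⁻¹ = L g) ∧ ∀ g h, L (g * h) ≤ L g + L h

/-- Convolution of a finitely supported `φ` with `ψ`. -/
noncomputable def conv (φ : G →₀ ℂ) (ψ : G → ℂ) (g : G) : ℂ :=
  ∑ h ∈ φ.support, φ h * ψ (h⁻¹ * g)

/-- Property RD. -/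
def RD (L : G → ℝ) : Prop :=
  ∃ P : Polynomial ℝ, ∀ r : ℝ, 0 < r → ∀ φ : G →₀ ℂ, (∀ g ∈ φ.support, L g ≤ r) →
    ∀ ψ : G → ℂ, Summable (fun g => ‖ψ g‖ ^ 2) →
      Summable (fun g => ‖conv φ ψ g‖ ^ 2) ∧ ∑' g, ‖conv φ ψ g‖ ^ 2 ≤
        P.eval r * (∑ g ∈ φ.support, ‖φ g‖ ^ 2) * ∑' g, ‖ψ g‖ ^ 2

open Classical in
/-- The indicator condition. -/
def Ind (L : G → ℝ) : Prop :=
  ∃ P : Polynomial ℝ, ∀ r : ℝ, 0 < r → ∀ S X : Finset G, (∀ s ∈ S, L s ≤ r) →
    ∑ g ∈ S * X, (((S ×ˢ X).filter fun p => p.1 * p.2 = g).card : ℝ) ^ 2 ≤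
      P.eval r * S.card * X.card

/-- Balls are finite and `log |B(r)|` is bounded by a polynomial in `r`. -/
def LogPoly (L : G → ℝ) : Prop :=
  ∃ Q : Polynomial ℝ, ∀ r : ℝ, 0 < r →
    {g | L g ≤ r}.Finite ∧ Real.log ({g | L g ≤ r}.ncard) ≤ Q.eval r

/-- Word length with respect to `A`. -/
noncomputable def wordLen (A : Finset G) (g : G) : ℝ :=
  ((sInf {n : ℕ | ∃ l : List G, l.length = n ∧ (∀ x ∈ l, x ∈ A ∨ x⁻¹ ∈ A) ∧ l.prod = g} : ℕ) : ℝ)

theorem opt (E K Ψ : ℝ) (hK : 0 ≤ K) (hΨ : 0 ≤ Ψ)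
    (h : ∀ t, 0 ≤ t → t * E ≤ K * (t ^ 2 * E + Ψ)) : E ≤ 4 * K ^ 2 * Ψ := by
  rcases hK.eq_or_lt with h0 | h0
  · have := h 1 zero_le_one
    rw [← h0] at this ⊢; linarith
  · have := h (1 / (2 * K)) (by positivity)
    have e : K * ((1 / (2 * K)) ^ 2 * E + Ψ) = 1 / (2 * K) * E / 2 + K * Ψ := by field_simp
    rw [e] at this
    have h2 : 1 / (2 * K) * E ≤ 2 * K * Ψ := by linarith
    rw [one_div_mul_eq_div, div_le_iff₀ (by positivity)] at h2
    linarith

theorem main (L : G → ℝ) (h1 : L 1 = 0) (hg : LogPoly L) (hI : Ind L) : RD L := by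
  classical
  obtain ⟨Q, hQ⟩ := hg
  obtain ⟨P, hP⟩ := hI
  refine ⟨8 * ((8 * Q + 6) ^ 2 * P * (1 + Q) + 1), fun r hr φ hφ ψ hψ => ?_⟩
  obtain ⟨hfin, hlog⟩ := hQ r hr
  have hP := hP r hr
  set p := P.eval r
  set q := Q.eval r
  have hp : 0 ≤ p := by
    have := hP {1} {1} (by simp [h1, hr.le])
    simp only [card_singleton, Nat.cast_one, mul_one] at this
    exact le_trans (Finset.sum_nonneg fun _ _ => sq_nonneg _) this
  have hq : 0 ≤ q := le_trans (Real.log_natCast_nonneg _) hlog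
  set n := φ.support.card with hn
  have hnq : Real.log n ≤ q := by
    refine le_trans ?_ hlog
    rcases Nat.eq_zero_or_pos n with h | h
    · rw [h]; simpa using Real.log_natCast_nonneg _
    · apply Real.log_le_log (by exact_mod_cast h)
      rw [hn, ← Set.ncard_coe_finset]
      exact_mod_cast Set.ncard_le_ncard (fun g hg => hφ g hg) hfin
  set Φ := ∑ g ∈ φ.support, ‖φ g‖ ^ 2 with hΦ
  have hΦ0 : 0 ≤ Φ := Finset.sum_nonneg fun _ _ => sq_nonneg _
  set D := ∑ g ∈ φ.support, ‖φ g‖ with hD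
  have hsub : ∀ (W : Finset G) (f : G → G), Function.Injective f → ∑ y ∈ W, ‖φ (f y)‖ ≤ D := by
    intro W f hf
    rw [← Finset.sum_image (f := fun g => ‖φ g‖) (fun a _ b _ h => hf h)]
    refine le_trans (Finset.sum_le_sum_of_subset_of_nonneg
      (Finset.subset_union_left (s₂ := φ.support)) fun _ _ _ => norm_nonneg _) (le_of_eq ?_)
    symm
    exact Finset.sum_subset Finset.subset_union_right fun x _ hx => by
      rw [Finsupp.notMem_support_iff.1 hx, norm_zero]
  have hH : (harmonic n : ℝ) ≤ 1 + q := (harmonic_le_one_add_log n).trans (by linarith)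
  set α := Real.sqrt (Φ * (p * (1 + q))) with hα
  have hα2 : α ^ 2 = Φ * (p * (1 + q)) := Real.sq_sqrt (by positivity)
  have hres : ∀ X Y : Finset G, (∑ x ∈ X, ∑ y ∈ Y, ‖φ (x * y⁻¹)‖) ^ 2 ≤
      α ^ 2 * X.card * Y.card := by
    intro X Y
    let c : G → ℝ := fun h => ((Y.filter fun y => h * y ∈ X).card : ℝ)
    have e1 : ∑ x ∈ X, ∑ y ∈ Y, ‖φ (x * y⁻¹)‖ = ∑ h ∈ φ.support, ‖φ h‖ * c h := by
      simp only [c, Finset.card_filter, Nat.cast_sum, Finset.mul_sum]
      rw [Finset.sum_comm, Finset.sum_comm (s := φ.support)]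
      refine Finset.sum_congr rfl fun y _ => ?_
      simp only [Nat.cast_ite, Nat.cast_one, Nat.cast_zero, mul_ite, mul_one, mul_zero]
      rw [← Finset.sum_filter]
      symm
      refine Finset.sum_bij_ne_zero (fun h _ _ => h * y) (fun h hh _ => (Finset.mem_filter.1 hh).2)
        (fun a _ _ b _ _ h => mul_right_cancel h) (fun x hx hne => ⟨x * y⁻¹,
          Finset.mem_filter.2 ⟨Finsupp.mem_support_iff.2 (norm_ne_zero_iff.1 hne), by simpa⟩,
          hne, by simp⟩) (fun h _ _ => by simp)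
    have e2 := weak c (fun _ => Nat.cast_nonneg _) (p * X.card * Y.card) (by positivity) n
      φ.support rfl (fun S hS => by
        have a1 : ∑ h ∈ S, c h = ∑ g ∈ X ∩ (S * Y),
            (((S ×ˢ Y).filter fun p => p.1 * p.2 = g).card : ℝ) := by
          have b1 : ∑ h ∈ S, (Y.filter fun y => h * y ∈ X).card =
              ((S ×ˢ Y).filter fun p => p.1 * p.2 ∈ X).card := by
            rw [Finset.card_filter, Finset.sum_product]; simp only [Finset.card_filter]
          have b2 := Finset.card_eq_sum_card_fiberwise (s := (S ×ˢ Y).filter fun p => p.1 * p.2 ∈ X)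
            (t := X ∩ (S * Y)) (f := fun p => p.1 * p.2) (fun p hp => by
              obtain ⟨c1, c2⟩ := Finset.mem_filter.1 hp
              obtain ⟨c3, c4⟩ := Finset.mem_product.1 c1
              exact Finset.mem_coe.2 (Finset.mem_inter.2 ⟨c2, Finset.mul_mem_mul c3 c4⟩))
          simp only [c]
          rw [← Nat.cast_sum, b1, b2, Nat.cast_sum]
          refine Finset.sum_congr rfl fun g hg => ?_
          congr 2
          rw [Finset.filter_filter]
          refine Finset.filter_congr fun p _ => ⟨fun h => h.2, fun h => ⟨?_, h⟩⟩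
          rw [h]; exact (Finset.mem_inter.1 hg).1
        rw [a1]
        refine sq_sum_le_card_mul_sum_sq.trans ?_
        have a2 := hP S Y fun s hs => hφ s (hS hs)
        have a3 : ((X ∩ (S * Y)).card : ℝ) ≤ X.card := by
          exact_mod_cast Finset.card_le_card Finset.inter_subset_left
        refine (mul_le_mul a3 ((Finset.sum_le_sum_of_subset_of_nonneg Finset.inter_subset_right
          fun _ _ _ => sq_nonneg _).trans a2) (Finset.sum_nonneg fun _ _ => sq_nonneg _)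
          (Nat.cast_nonneg _)).trans (le_of_eq (by ring)))
    rw [e1, hα2]
    refine (Finset.sum_mul_sq_le_sq_mul_sq _ _ _).trans ?_
    have e3 := mul_le_mul_of_nonneg_left hH (show 0 ≤ p * X.card * Y.card by positivity)
    refine (mul_le_mul_of_nonneg_left (e2.trans e3) hΦ0).trans (le_of_eq (by ring))
  set m := Nat.log 2 n + 1 with hm
  have hm1 : (n : ℝ) ≤ 2 ^ m := by exact_mod_cast (Nat.lt_pow_succ_log_self (by norm_num) n).le
  have hm2 : (m : ℝ) ≤ 2 * q + 1 := by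
    have a1 : (Nat.log 2 n : ℝ) * Real.log 2 ≤ q := by
      rcases Nat.eq_zero_or_pos n with h | h
      · rw [h]; simpa using hq
      · refine le_trans ?_ hnq
        rw [← Real.log_pow]
        apply Real.log_le_log (by positivity)
        exact_mod_cast Nat.pow_log_le_self 2 h.ne'
    have a2 := Real.log_two_gt_d9
    have a3 : (0 : ℝ) ≤ Nat.log 2 n := Nat.cast_nonneg _
    rw [hm]; push_cast; nlinarith
  have hD0 : 0 ≤ D := Finset.sum_nonneg fun _ _ => norm_nonneg _
  have hα0 : 0 ≤ α := Real.sqrt_nonneg _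
  set K := (2 * m + 1) * (2 * α) + D / 2 ^ m with hK
  have hK0 : 0 ≤ K := by positivity
  have hK2 : 4 * K ^ 2 ≤ 8 * ((8 * q + 6) ^ 2 * p * (1 + q) + 1) * Φ := by
    have a1 : (D / 2 ^ m) ^ 2 ≤ Φ := by
      rw [div_pow, div_le_iff₀ (by positivity)]
      refine sq_sum_le_card_mul_sum_sq.trans ?_
      rw [mul_comm]
      refine mul_le_mul_of_nonneg_left (hm1.trans ?_) hΦ0
      have : (1 : ℝ) ≤ 2 ^ m := one_le_pow₀ (by norm_num)
      nlinarith
    have a2 : ((2 * m + 1) * (2 * α)) ^ 2 ≤ ((8 * q + 6) * α) ^ 2 :=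
      pow_le_pow_left₀ (by positivity) (by nlinarith) 2
    rw [mul_pow (8 * q + 6), hα2] at a2
    nlinarith [sq_nonneg ((2 * m + 1) * (2 * α) - D / 2 ^ m)]
  have hΨ0 : 0 ≤ ∑' g, ‖ψ g‖ ^ 2 := tsum_nonneg fun _ => sq_nonneg _
  have fin : ∀ U : Finset G, ∑ g ∈ U, ‖conv φ ψ g‖ ^ 2 ≤
      8 * ((8 * q + 6) ^ 2 * p * (1 + q) + 1) * Φ * ∑' g, ‖ψ g‖ ^ 2 := by
    intro U
    let W := φ.support⁻¹ * U
    let u : G → ℝ := fun x => ∑ y ∈ W, ‖φ (x * y⁻¹)‖ * ‖ψ y‖
    have hu0 : ∀ x, 0 ≤ u x := fun x => Finset.sum_nonneg fun _ _ => by positivity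
    have a1 : ∀ x ∈ U, ‖conv φ ψ x‖ ≤ u x := by
      intro x hx
      refine (norm_sum_le _ _).trans ?_
      have : ∑ h ∈ φ.support, ‖φ h * ψ (h⁻¹ * x)‖ =
          ∑ y ∈ φ.support.image (fun h => h⁻¹ * x), ‖φ (x * y⁻¹)‖ * ‖ψ y‖ := by
        rw [Finset.sum_image (fun a _ b _ h => inv_injective (mul_right_cancel h))]
        exact Finset.sum_congr rfl fun h _ => by simp
      rw [this]
      refine Finset.sum_le_sum_of_subset_of_nonneg (fun y hy => ?_) fun _ _ _ => by positivity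
      obtain ⟨h, hh, rfl⟩ := Finset.mem_image.1 hy
      exact Finset.mul_mem_mul (Finset.inv_mem_inv hh) hx
    have a2 : ∑ x ∈ U, u x ^ 2 ≤ 4 * K ^ 2 * ∑ y ∈ W, ‖ψ y‖ ^ 2 := by
      refine opt _ _ _ hK0 (Finset.sum_nonneg fun _ _ => sq_nonneg _) fun t ht => ?_
      have := bl (fun x y => ‖φ (x * y⁻¹)‖) (fun _ _ => norm_nonneg _) α D hα0 U W
        (fun x => hsub W (fun y => x * y⁻¹) fun a b h => inv_injective (mul_left_cancel h))
        (fun y => hsub U (fun x => x * y⁻¹) fun a b h => mul_right_cancel h) hres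
        (fun x => t * u x) (fun y => ‖ψ y‖) (fun x => mul_nonneg ht (hu0 x))
        (fun _ => norm_nonneg _) m
      refine le_trans (le_of_eq ?_) (this.trans (le_of_eq ?_))
      · rw [Finset.mul_sum]
        refine Finset.sum_congr rfl fun x _ => ?_
        have : t * u x ^ 2 = (t * u x) * u x := by ring
        rw [this]
        conv_lhs => enter [2]; simp only [u]
        rw [Finset.mul_sum]
        exact Finset.sum_congr rfl fun y _ => by ring
      · simp only [mul_pow, ← Finset.mul_sum, hK]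
    have a3 : ∑ y ∈ W, ‖ψ y‖ ^ 2 ≤ ∑' g, ‖ψ g‖ ^ 2 := hψ.sum_le_tsum _ fun _ _ => sq_nonneg _
    exact (Finset.sum_le_sum fun x hx => pow_le_pow_left₀ (norm_nonneg _) (a1 x hx) 2).trans
      (a2.trans (mul_le_mul hK2 a3 (Finset.sum_nonneg fun _ _ => sq_nonneg _) (by positivity)))
  refine ⟨summable_of_sum_le (fun _ => sq_nonneg _) fin, ?_⟩
  refine (Real.tsum_le_of_sum_le (fun _ => sq_nonneg _) fin).trans (le_of_eq ?_)
  simp [p, q]

theorem word (A : Finset G) (hA : Subgroup.closure (A : Set G) = ⊤) : LogPoly (wordLen A) := by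
  classical
  let T : Finset G := insert 1 (A ∪ A⁻¹)
  have hT : (1 : ℝ) ≤ T.card := by
    exact_mod_cast Finset.card_pos.2 (Finset.insert_nonempty _ _)
  refine ⟨Polynomial.C (Real.log T.card) * Polynomial.X, fun r hr => ?_⟩
  have hsub : {g | wordLen A g ≤ r} ⊆ ((T ^ ⌊r⌋₊ : Finset G) : Set G) := by
    intro g hg
    have hne : {n : ℕ | ∃ l : List G, l.length = n ∧ (∀ x ∈ l, x ∈ A ∨ x⁻¹ ∈ A) ∧
        l.prod = g}.Nonempty := by
      have : g ∈ (Subgroup.closure (A : Set G)).toSubmonoid := by rw [hA]; trivial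
      rw [Subgroup.closure_toSubmonoid] at this
      obtain ⟨l, h1, h2⟩ := Submonoid.exists_list_of_mem_closure this
      exact ⟨_, l, rfl, fun x hx => by simpa using h1 x hx, h2⟩
    obtain ⟨l, h1, h2, h3⟩ := Nat.sInf_mem hne
    have h4 : l.length ≤ ⌊r⌋₊ := by rw [h1]; exact Nat.le_floor hg
    refine Finset.mem_coe.2 (Finset.pow_subset_pow_right (Finset.mem_insert_self _ _) h4 ?_)
    rw [← h3]
    clear h1 h3 h4
    induction l with
    | nil => simp
    | cons a l ih =>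
      rw [List.length_cons, List.prod_cons, pow_succ']
      refine Finset.mul_mem_mul ?_ (ih fun x hx => h2 x (List.mem_cons_of_mem _ hx))
      have := h2 a List.mem_cons_self
      simp only [T, mem_insert, mem_union, Finset.mem_inv']
      exact Or.inr this
  refine ⟨(Finset.finite_toSet _).subset hsub, ?_⟩
  have h1 : ({g | wordLen A g ≤ r}.ncard : ℝ) ≤ (T.card : ℝ) ^ ⌊r⌋₊ := by
    have := Set.ncard_le_ncard hsub (Finset.finite_toSet _)
    rw [Set.ncard_coe_finset] at this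
    exact_mod_cast this.trans Finset.card_pow_le
  have h2 : 0 ≤ Real.log T.card := Real.log_nonneg hT
  simp only [Polynomial.eval_mul, Polynomial.eval_C, Polynomial.eval_X]
  rcases Nat.eq_zero_or_pos {g | wordLen A g ≤ r}.ncard with h | h
  · rw [h]; simp only [Nat.cast_zero, Real.log_zero]; positivity
  · refine (Real.log_le_log (by exact_mod_cast h) h1).trans ?_
    rw [Real.log_pow, mul_comm]
    exact mul_le_mul_of_nonneg_left (Nat.floor_le hr.le) h2

theorem result (G : Type) [Group G] :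
    (∀ L : G → ℝ, IsLength L → LogPoly L → Ind L → RD L) ∧
    ∀ A : Finset G, Subgroup.closure (A : Set G) = ⊤ → Ind (wordLen A) → RD (wordLen A) := by
  refine ⟨fun L hL => main L hL.1, fun A hA => main _ ?_ (word A hA)⟩
  unfold wordLen
  rw [Nat.cast_eq_zero, Nat.sInf_eq_zero]
  exact Or.inl ⟨[], rfl, by simp, rfl⟩

end Pool.Agent.Results.MP_37447d_al.Growth
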